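import Pool.Agent.LUB.Stmts

/-!
# Squad LUB, row BND
-/

set_option autoImplicit false

open Polynomial

namespace Pool.Agent.LUB.H22

/-- Polynomial growth of the values of an integer polynomial. -/
theorem poly_growth (c : ℤ[X]) : ∃ (C : ℝ) (k : ℕ), 0 ≤ C ∧ ∀ t : ℤ, 1 ≤ |(t : ℝ)| →
    |((c.eval t : ℤ) : ℝ)| ≤ C * |(t : ℝ)| ^ k := by
  refine ⟨∑ i ∈ Finset.range (c.natDegree + 1), |((c.coeff i : ℤ) : ℝ)|, c.natDegree,
    Finset.sum_nonneg fun _ _ => abs_nonneg _, fun t ht => ?_⟩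
  rw [eval_eq_sum_range]
  push_cast
  refine (Finset.abs_sum_le_sum_abs _ _).trans ?_
  rw [Finset.sum_mul]
  refine Finset.sum_le_sum fun i hi => ?_
  rw [abs_mul, abs_pow]
  have hi' : i ≤ c.natDegree := by
    have := Finset.mem_range.1 hi
    omega
  exact mul_le_mul_of_nonneg_left (pow_le_pow_right₀ ht hi') (abs_nonneg _)

/-- The sum of the absolute values of the values of finitely many integer polynomials is at most
`|t| ^ K` for large `|t|`. -/
theorem sum_growth (m : ℕ) (c : ℕ → ℤ[X]) : ∃ (K : ℕ) (t₀ : ℕ), ∀ t : ℤ, (t₀ : ℝ) ≤ |(t : ℝ)| →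
    1 + ∑ i ∈ Finset.range m, |(((c i).eval t : ℤ) : ℝ)| ≤ |(t : ℝ)| ^ K := by
  choose C k hC hk using fun i => poly_growth (c i)
  set K := ∑ i ∈ Finset.range m, k i with hK
  set A := 1 + ∑ i ∈ Finset.range m, C i with hA
  obtain ⟨N, hN⟩ := exists_nat_ge A
  have hA1 : 1 ≤ A := by
    have : 0 ≤ ∑ i ∈ Finset.range m, C i := Finset.sum_nonneg fun i _ => hC i
    linarith
  refine ⟨K + 1, N, fun t ht => ?_⟩
  have h1 : 1 ≤ |(t : ℝ)| := hA1.trans (hN.trans ht)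
  have h2 : ∀ i ∈ Finset.range m, |(((c i).eval t : ℤ) : ℝ)| ≤ C i * |(t : ℝ)| ^ K := by
    intro i hi
    refine (hk i t h1).trans (mul_le_mul_of_nonneg_left (pow_le_pow_right₀ h1 ?_) (hC i))
    exact Finset.single_le_sum (f := k) (fun _ _ => Nat.zero_le _) hi
  have h3 : 1 ≤ |(t : ℝ)| ^ K := one_le_pow₀ h1
  calc 1 + ∑ i ∈ Finset.range m, |(((c i).eval t : ℤ) : ℝ)|
      ≤ |(t : ℝ)| ^ K + ∑ i ∈ Finset.range m, C i * |(t : ℝ)| ^ K :=
        add_le_add h3 (Finset.sum_le_sum h2)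
    _ = A * |(t : ℝ)| ^ K := by rw [hA, add_mul, one_mul, Finset.sum_mul]
    _ ≤ |(t : ℝ)| * |(t : ℝ)| ^ K := mul_le_mul_of_nonneg_right (hN.trans ht) (by positivity)
    _ = |(t : ℝ)| ^ (K + 1) := by ring

/-- The upper bound for a root of a monic relation. -/
theorem root_upper (m : ℕ) (c : ℕ → ℂ) (z : ℂ) (h : z ^ m + ∑ i ∈ Finset.range m, c i * z ^ i = 0) :
    ‖z‖ ≤ 1 + ∑ i ∈ Finset.range m, ‖c i‖ := by
  have hS : 0 ≤ ∑ i ∈ Finset.range m, ‖c i‖ := Finset.sum_nonneg fun _ _ => norm_nonneg _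
  rcases le_or_gt ‖z‖ 1 with h1 | h1
  · linarith
  · rcases Nat.eq_zero_or_pos m with rfl | hm
    · simp at h
    · have h2 : ‖z‖ ^ m ≤ (∑ i ∈ Finset.range m, ‖c i‖) * ‖z‖ ^ (m - 1) := by
        have h3 : z ^ m = -∑ i ∈ Finset.range m, c i * z ^ i := eq_neg_of_add_eq_zero_left h
        rw [← norm_pow, h3, norm_neg, Finset.sum_mul]
        refine (norm_sum_le _ _).trans (Finset.sum_le_sum fun i hi => ?_)
        rw [norm_mul, norm_pow]
        refine mul_le_mul_of_nonneg_left (pow_le_pow_right₀ h1.le ?_) (norm_nonneg _)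
        have := Finset.mem_range.1 hi
        omega
      have h4 : ‖z‖ ^ m = ‖z‖ * ‖z‖ ^ (m - 1) := by
        rw [← pow_succ']
        congr 1
        omega
      rw [h4] at h2
      have h5 : 0 < ‖z‖ ^ (m - 1) := by positivity
      have := le_of_mul_le_mul_right h2 h5
      linarith

/-- The lower bound for a root of a relation with large constant term. -/
theorem root_lower (m : ℕ) (c : ℕ → ℂ) (z : ℂ) (M : ℝ) (hM : 1 ≤ M)
    (hz : ‖z‖ ≤ M) (hc : ∑ i ∈ Finset.range (m + 1), ‖c i‖ ≤ M) (h0 : 1 ≤ ‖c 0‖)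
    (h : ∑ i ∈ Finset.range (m + 1), c i * z ^ i = 0) : 1 ≤ ‖z‖ * M ^ (m + 1) := by
  rw [Finset.sum_range_succ'] at h
  have h1 : c 0 = -∑ i ∈ Finset.range m, c (i + 1) * z ^ (i + 1) := by
    rw [pow_zero, mul_one] at h
    exact eq_neg_of_add_eq_zero_right h
  have h2 : ‖c 0‖ ≤ ∑ i ∈ Finset.range m, ‖z‖ * (‖c (i + 1)‖ * M ^ m) := by
    conv_lhs => rw [h1, norm_neg]
    refine (norm_sum_le _ _).trans (Finset.sum_le_sum fun i hi => ?_)
    rw [norm_mul, norm_pow, pow_succ]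
    have h3 : ‖z‖ ^ i ≤ M ^ m := by
      refine (pow_le_pow_left₀ (norm_nonneg _) hz i).trans (pow_le_pow_right₀ hM ?_)
      have := Finset.mem_range.1 hi
      omega
    calc ‖c (i + 1)‖ * (‖z‖ ^ i * ‖z‖) = ‖z‖ * (‖c (i + 1)‖ * ‖z‖ ^ i) := by ring
      _ ≤ ‖z‖ * (‖c (i + 1)‖ * M ^ m) := by
        gcongr
  rw [← Finset.mul_sum, ← Finset.sum_mul] at h2
  have h4 : ∑ i ∈ Finset.range m, ‖c (i + 1)‖ ≤ M := by
    refine le_trans ?_ hc
    rw [Finset.sum_range_succ']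
    linarith [norm_nonneg (c 0)]
  calc (1 : ℝ) ≤ ‖c 0‖ := h0
    _ ≤ ‖z‖ * ((∑ i ∈ Finset.range m, ‖c (i + 1)‖) * M ^ m) := h2
    _ ≤ ‖z‖ * (M * M ^ m) := by gcongr
    _ = ‖z‖ * M ^ (m + 1) := by ring

/-- The value of `P(a, b)`. -/
noncomputable def ev {S : Type} [CommRing S] (P : ℤ[X][X]) (a b : S) : S :=
  P.eval₂ (eval₂RingHom (Int.castRingHom S) a) b

theorem ev_map {S S' : Type} [CommRing S] [CommRing S'] (g : S →+* S') (P : ℤ[X][X]) (a b : S) :
    g (ev P a b) = ev P (g a) (g b) := by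
  rw [ev, ev, hom_eval₂]
  congr 1
  ext
  · simp
  · simp

theorem ev_mul_X {S : Type} [CommRing S] (P : ℤ[X][X]) (a b : S) :
    ev (X * P) a b = b * ev P a b := by
  simp [ev, eval₂_mul]

theorem ev_sum {S : Type} [CommRing S] (P : ℤ[X][X]) (a b : S) :
    ev P a b = ∑ i ∈ Finset.range (P.natDegree + 1),
      (eval₂RingHom (Int.castRingHom S) a (P.coeff i)) * b ^ i := by
  rw [ev, eval₂_eq_sum_range]

/-- The minimal relation. -/
theorem exists_rel {Ω : Type} [Field Ω] (T x : Ω) (hx : x ≠ 0)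
    (hint : IsIntegral (Algebra.adjoin ℤ {T}) x) :
    ∃ P : ℤ[X][X], P.Monic ∧ P.coeff 0 ≠ 0 ∧ ev P T x = 0 := by
  classical
  have hex : ∃ P : ℤ[X][X], P.Monic ∧ ev P T x = 0 := by
    obtain ⟨p, hp, hpx⟩ := hint
    set φ : ℤ[X] →+* Algebra.adjoin ℤ {T} :=
      eval₂RingHom (Int.castRingHom _) ⟨T, Algebra.subset_adjoin (by simp)⟩ with hφ
    have hsurj : Function.Surjective φ := by
      rintro ⟨y, hy⟩
      rw [Algebra.adjoin_singleton_eq_range_aeval] at hy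
      obtain ⟨q, hq⟩ := hy
      refine ⟨q, ?_⟩
      apply Subtype.coe_injective
      have h1 : ((φ q : Algebra.adjoin ℤ {T}) : Ω) = aeval T q := by
        have h2 : ((algebraMap (Algebra.adjoin ℤ {T}) Ω).comp φ) =
            (aeval T : ℤ[X] →ₐ[ℤ] Ω).toRingHom := by
          ext
          · simp
          · simp [hφ]
        exact RingHom.congr_fun h2 q
      exact h1.trans hq
    have hl : p ∈ lifts φ := (Polynomial.map_surjective φ hsurj) p
    obtain ⟨P, hP, -, hPm⟩ := lifts_and_natDegree_eq_and_monic hl hp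
    refine ⟨P, hPm, ?_⟩
    rw [← hP, eval₂_map] at hpx
    have h3 : eval₂RingHom (Int.castRingHom Ω) T = (algebraMap (Algebra.adjoin ℤ {T}) Ω).comp φ := by
      ext
      · simp
      · simp [hφ]
    rw [ev, h3]
    exact hpx
  set n := Nat.find (p := fun n => ∃ P : ℤ[X][X], P.Monic ∧ ev P T x = 0 ∧ P.natDegree = n)
    (by obtain ⟨P, h1, h2⟩ := hex; exact ⟨P.natDegree, P, h1, h2, rfl⟩) with hn
  obtain ⟨P, hP, hPx, hPn⟩ := Nat.find_spec
    (p := fun n => ∃ P : ℤ[X][X], P.Monic ∧ ev P T x = 0 ∧ P.natDegree = n)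
    (by obtain ⟨P, h1, h2⟩ := hex; exact ⟨P.natDegree, P, h1, h2, rfl⟩)
  refine ⟨P, hP, fun h0 => ?_, hPx⟩
  obtain ⟨Q, hQ⟩ := X_dvd_iff.2 h0
  have hQm : Q.Monic := by
    rw [hQ] at hP
    exact monic_X.of_mul_monic_left hP
  have hQx : ev Q T x = 0 := by
    rw [hQ, ev_mul_X] at hPx
    exact (mul_eq_zero.1 hPx).resolve_left hx
  have hdeg : P.natDegree = Q.natDegree + 1 := by
    rw [hQ, natDegree_X_mul hQm.ne_zero]
  exact Nat.find_min
    (p := fun n => ∃ P : ℤ[X][X], P.Monic ∧ ev P T x = 0 ∧ P.natDegree = n)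
    (by obtain ⟨P, h1, h2⟩ := hex; exact ⟨P.natDegree, P, h1, h2, rfl⟩)
    (m := Q.natDegree) (by rw [← hPn]; omega) ⟨Q, hQm, hQx, rfl⟩

/-- The absolute value of a non-zero integer value. -/
theorem norm_int_ge {n : ℤ} (h : n ≠ 0) : 1 ≤ ‖((n : ℤ) : ℂ)‖ := by
  rw [Complex.norm_intCast]
  exact_mod_cast Int.one_le_abs h

/-- Polynomial bounds for specialized values. -/
theorem bnd : BndStmt := by
  intro Ω _ _ T hT n θ hθ x hx
  have hx' : (x : Ω) ≠ 0 := fun h => hx (Subtype.coe_injective h)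
  have hTint : ∀ y ∈ ({T} ∪ Set.range θ : Set Ω), IsIntegral (Algebra.adjoin ℤ {T}) y := by
    rintro y (hy | ⟨j, rfl⟩)
    · rw [Set.mem_singleton_iff] at hy
      subst hy
      exact isIntegral_algebraMap (R := Algebra.adjoin ℤ {y})
        (x := ⟨y, Algebra.subset_adjoin (by simp)⟩)
    · exact hθ j
  have hint : IsIntegral (Algebra.adjoin ℤ {T}) (x : Ω) := by
    have h1 : ∀ y ∈ Algebra.adjoin ℤ ({T} ∪ Set.range θ),
        IsIntegral (Algebra.adjoin ℤ {T}) y := by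
      intro y hy
      induction hy using Algebra.adjoin_induction with
      | mem y hy => exact hTint y hy
      | algebraMap r =>
        have h2 : algebraMap ℤ Ω r = algebraMap (Algebra.adjoin ℤ {T}) Ω (algebraMap ℤ _ r) := by
          simp
        rw [h2]
        exact isIntegral_algebraMap
      | add a b _ _ ha hb => exact ha.add hb
      | mul a b _ _ ha hb => exact ha.mul hb
    exact h1 x x.2
  obtain ⟨P, hPm, hP0, hPx⟩ := exists_rel T (x : Ω) hx' hint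
  set T' : Algebra.adjoin ℤ ({T} ∪ Set.range θ) := ⟨T, Algebra.subset_adjoin (by simp)⟩ with hT'
  have hrel : ev P T' x = 0 := by
    apply Subtype.coe_injective
    exact (ev_map (algebraMap (Algebra.adjoin ℤ ({T} ∪ Set.range θ)) Ω) P T' x).trans hPx
  set m := P.natDegree with hm
  obtain ⟨K, t₁, hK⟩ := sum_growth (m + 1) (fun i => P.coeff i)
  -- the constant term does not vanish for large `t`
  obtain ⟨t₂, ht₂⟩ : ∃ t₂ : ℕ, ∀ t : ℤ, (t₂ : ℝ) ≤ |(t : ℝ)| → (P.coeff 0).eval t ≠ 0 := by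
    classical
    refine ⟨1 + ∑ r ∈ (P.coeff 0).roots.toFinset, r.natAbs, fun t ht h0 => ?_⟩
    have h1 : t ∈ (P.coeff 0).roots.toFinset := by
      rw [Multiset.mem_toFinset, mem_roots hP0]
      exact h0
    have h2 := Finset.single_le_sum (f := fun r : ℤ => r.natAbs) (fun _ _ => Nat.zero_le _) h1
    have h3 : |(t : ℝ)| = (t.natAbs : ℝ) := by
      rw [Nat.cast_natAbs]
      push_cast
      rfl
    rw [h3] at ht
    have h4 := Nat.cast_le.1 ht
    omega
  refine ⟨((m + 1 : ℕ) : ℝ) * K, max (max t₁ t₂) 1, fun t ht s hs => ?_⟩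
  have ht1 : (t₁ : ℝ) ≤ |(t : ℝ)| := le_trans (by simp) ht
  have ht2 : (t₂ : ℝ) ≤ |(t : ℝ)| := le_trans (by simp) ht
  have ht3 : (1 : ℝ) ≤ |(t : ℝ)| := le_trans (by simp) ht
  set z := s x with hz
  have hsrel : ∑ i ∈ Finset.range (m + 1), (((P.coeff i).eval t : ℤ) : ℂ) * z ^ i = 0 := by
    have h1 := ev_map s P T' x
    rw [hrel, map_zero, hs, ev_sum] at h1
    rw [h1]
    refine Finset.sum_congr rfl fun i _ => ?_
    congr 1
    have h2 : ((Int.castRingHom ℂ).comp (evalRingHom t) : ℤ[X] →+* ℂ) =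
        eval₂RingHom (Int.castRingHom ℂ) (t : ℂ) := by
      apply Polynomial.ringHom_ext
      · intro a
        simp
      · simp
    exact RingHom.congr_fun h2 (P.coeff i)
  set M : ℝ := 1 + ∑ i ∈ Finset.range (m + 1), |(((P.coeff i).eval t : ℤ) : ℝ)| with hM
  have hnorm : ∀ i, ‖(((P.coeff i).eval t : ℤ) : ℂ)‖ = |(((P.coeff i).eval t : ℤ) : ℝ)| := by
    intro i
    rw [Complex.norm_intCast]
  have hM1 : 1 ≤ M := by
    have : 0 ≤ ∑ i ∈ Finset.range (m + 1), |(((P.coeff i).eval t : ℤ) : ℝ)| :=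
      Finset.sum_nonneg fun _ _ => abs_nonneg _
    linarith
  have hsum : ∑ i ∈ Finset.range (m + 1), ‖(((P.coeff i).eval t : ℤ) : ℂ)‖ ≤ M := by
    rw [hM, Finset.sum_congr rfl fun i _ => hnorm i]
    linarith
  have hup : ‖z‖ ≤ M := by
    have h1 : z ^ m + ∑ i ∈ Finset.range m, (((P.coeff i).eval t : ℤ) : ℂ) * z ^ i = 0 := by
      rw [Finset.sum_range_succ] at hsrel
      have h2 : P.coeff m = 1 := hPm.coeff_natDegree
      rw [h2] at hsrel
      simp only [eval_one, Int.cast_one, one_mul] at hsrel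
      rw [add_comm]
      exact hsrel
    refine (root_upper m _ z h1).trans ?_
    rw [hM, Finset.sum_range_succ, Finset.sum_congr rfl fun i _ => hnorm i]
    linarith [abs_nonneg (((P.coeff m).eval t : ℤ) : ℝ)]
  have hlow : 1 ≤ ‖z‖ * M ^ (m + 1) :=
    root_lower m (fun i => (((P.coeff i).eval t : ℤ) : ℂ)) z M hM1 hup hsum
      (norm_int_ge (ht₂ t ht2)) hsrel
  have hz0 : z ≠ 0 := by
    intro h
    rw [h] at hlow
    simp at hlow
    linarith
  refine ⟨hz0, ?_⟩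
  have hzpos : 0 < ‖z‖ := norm_pos_iff.2 hz0
  have hMpos : 0 < M := by linarith
  have hlogM : Real.log M ≤ K * Real.log |(t : ℝ)| := by
    have h1 := Real.log_le_log hMpos (hK t ht1)
    rwa [Real.log_pow] at h1
  have hlogM0 : 0 ≤ Real.log M := Real.log_nonneg hM1
  have h1 : Real.log ‖z‖ ≤ Real.log M := Real.log_le_log hzpos hup
  have h2 : 0 ≤ Real.log ‖z‖ + ((m + 1 : ℕ) : ℝ) * Real.log M := by
    rw [← Real.log_pow, ← Real.log_mul hzpos.ne' (pow_pos hMpos _).ne']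
    exact Real.log_nonneg hlow
  have h3 : (0 : ℝ) ≤ ((m + 1 : ℕ) : ℝ) := Nat.cast_nonneg _
  have h4 : (1 : ℝ) ≤ ((m + 1 : ℕ) : ℝ) := by exact_mod_cast Nat.succ_le_succ (Nat.zero_le m)
  rw [abs_le, mul_assoc]
  constructor
  · have := mul_le_mul_of_nonneg_left hlogM h3
    linarith
  · have h5 := mul_le_mul_of_nonneg_left hlogM h3
    have h6 : Real.log M ≤ ((m + 1 : ℕ) : ℝ) * Real.log M := by
      have := mul_le_mul_of_nonneg_right h4 hlogM0
      linarith
    linarith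

end Pool.Agent.LUB.H22
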