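import Pool.Agent.LUB.Stmts

/-!
# Squad LUB, row DEP
-/

set_option autoImplicit false

namespace Pool.Agent.LUB.H22

/-- If all maximal minors vanish, the rows are dependent. -/
theorem dep : DepStmt := by
  intro S _ _ r n L hL
  by_contra hcon
  push Not at hcon
  set k := FractionRing S with hk
  set b : Fin r → Fin n → k := fun i j => algebraMap S k (L i j) with hb
  -- the rows are linearly independent over `S`
  have h1 : LinearIndependent S b := by
    rw [Fintype.linearIndependent_iff]
    intro g hg
    by_contra hne
    push Not at hne
    obtain ⟨i, hi⟩ := hne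
    have hg0 : g ≠ 0 := fun h => hi (by rw [h]; rfl)
    obtain ⟨j, hj⟩ := hcon g hg0
    apply hj
    have h2 := congrFun hg j
    simp only [Finset.sum_apply, Pi.zero_apply, hb, Algebra.smul_def] at h2
    have h3 : algebraMap S k (∑ i, g i * L i j) = 0 := by
      rw [map_sum]
      simpa [map_mul] using h2
    exact (IsFractionRing.injective S k) (by rw [h3, map_zero])
  have h2 : LinearIndependent k b := (LinearIndependent.iff_fractionRing S k).1 h1
  -- the columns span
  set M : Matrix (Fin r) (Fin n) k := Matrix.of b with hM
  have h3 : M.rank = r := by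
    have := LinearIndependent.rank_matrix (M := M) (by exact h2)
    simpa using this
  have h4 : Submodule.span k (Set.range M.col) = ⊤ := by
    apply Submodule.eq_top_of_finrank_eq
    rw [← Matrix.rank_eq_finrank_span_cols, h3]
    simp
  obtain ⟨κ, a, ha, hspan, hli⟩ := exists_linearIndependent' k M.col
  rw [h4] at hspan
  let B : Module.Basis κ k (Fin r → k) := Module.Basis.mk hli (by rw [hspan])
  have hfin : Finite κ := Finite.of_injective a ha
  have := Fintype.ofFinite κ
  have hcard : Fintype.card κ = r := by
    have h5 := Module.finrank_eq_card_basis B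
    simpa using h5.symm
  let e : Fin r ≃ κ := (Fintype.equivFinOfCardEq hcard).symm
  have h6 : LinearIndependent k (fun i : Fin r => M.col (a (e i))) :=
    hli.comp e e.injective
  have h7 : ((Matrix.of fun i k => L i (a (e k))).map (algebraMap S k)).det ≠ 0 := by
    have h8 : IsUnit (((Matrix.of fun i k => L i (a (e k))).map (algebraMap S k))) := by
      rw [← Matrix.linearIndependent_cols_iff_isUnit]
      exact h6
    exact ((Matrix.isUnit_iff_isUnit_det _).1 h8).ne_zero
  apply h7
  have h9 := hL (fun i => a (e i))
  have h10 : ((Matrix.of fun i k => L i (a (e k))).map (algebraMap S k)).det =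
      algebraMap S k (Matrix.of fun i k => L i (a (e k))).det := by
    rw [RingHom.map_det]
    rfl
  rw [h10, h9, map_zero]

end Pool.Agent.LUB.H22
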