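import Pool.Agent.LUB.Stmts

/-!
# Squad LUB, row KIL
-/

set_option autoImplicit false

open Polynomial

namespace Pool.Agent.LUB.H22

/-- Algebraic products have bounded specializations. -/
theorem kil : KilStmt := by
  intro Ω _ _ B κ _ y m hy halg
  classical
  have hZ : IsAlgebraic ℤ (∏ i, (y i : Ω) ^ m i) :=
    (IsFractionRing.isAlgebraic_iff ℤ ℚ Ω).2 halg
  have hγ : (∏ i, (y i : Ω) ^ m i) ≠ 0 :=
    Finset.prod_ne_zero_iff.2 fun i _ => zpow_ne_zero _ (hy i)
  obtain ⟨q, hq0, hq⟩ := hZ.exists_nonzero_coeff_and_aeval_eq_zero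
    (mem_nonZeroDivisors_of_ne_zero hγ)
  set Q : ℂ[X] := q.map (Int.castRingHom ℂ) with hQ
  have hQ0 : Q.coeff 0 ≠ 0 := by
    rw [hQ, coeff_map]
    simpa using hq0
  have hQne : Q ≠ 0 := by
    intro h
    rw [h] at hQ0
    simp at hQ0
  refine ⟨∑ z ∈ Q.roots.toFinset, |Real.log ‖z‖|, fun s hs => ?_⟩
  -- the numerator and the denominator
  set a : B := ∏ i, y i ^ (m i).toNat with ha
  set b : B := ∏ i, y i ^ (-(m i)).toNat with hb
  have hzp : ∀ (F : Type) [Field F] (x : F) (k : ℤ), x ≠ 0 →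
      x ^ k = x ^ k.toNat / x ^ (-k).toNat := by
    intro F _ x k hx
    rw [← zpow_natCast, ← zpow_natCast, ← zpow_sub₀ hx]
    congr 1
    omega
  have hb0 : (b : Ω) ≠ 0 := by
    rw [hb]
    push_cast
    exact Finset.prod_ne_zero_iff.2 fun i _ => pow_ne_zero _ (hy i)
  have hab : (∏ i, (y i : Ω) ^ m i) = (a : Ω) / (b : Ω) := by
    rw [ha, hb]
    push_cast
    rw [← Finset.prod_div_distrib]
    exact Finset.prod_congr rfl fun i _ => hzp Ω _ _ (hy i)
  have hsb0 : s b ≠ 0 := by
    rw [hb, map_prod]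
    exact Finset.prod_ne_zero_iff.2 fun i _ => by
      rw [map_pow]
      exact pow_ne_zero _ (hs i)
  have hsab : (∏ i, (s (y i)) ^ m i) = s a / s b := by
    rw [ha, hb, map_prod, map_prod, ← Finset.prod_div_distrib]
    exact Finset.prod_congr rfl fun i _ => by
      rw [map_pow, map_pow]
      exact hzp ℂ _ _ (hs i)
  set d := q.natDegree with hd
  have hterm : ∀ (F : Type) [Field F] (x z : F), z ≠ 0 → ∀ c : F, ∀ k ∈ Finset.range (d + 1),
      c * x ^ k * z ^ (d - k) = z ^ d * (c * (x / z) ^ k) := by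
    intro F _ x z hz c k hk
    have hk' : k ≤ d := by
      have := Finset.mem_range.1 hk
      omega
    have h1 : z ^ d = z ^ (d - k) * z ^ k := by
      rw [← pow_add]
      congr 1
      omega
    rw [h1, div_pow]
    field_simp
  have hrel : ∑ k ∈ Finset.range (d + 1), ((q.coeff k : ℤ) : B) * a ^ k * b ^ (d - k) = 0 := by
    apply Subtype.coe_injective
    have h1 : ((∑ k ∈ Finset.range (d + 1), ((q.coeff k : ℤ) : B) * a ^ k * b ^ (d - k) : B) : Ω) =
        ∑ k ∈ Finset.range (d + 1), ((q.coeff k : ℤ) : Ω) * (a : Ω) ^ k * (b : Ω) ^ (d - k) := by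
      push_cast
      rfl
    refine h1.trans ?_
    rw [Finset.sum_congr rfl fun k hk => hterm Ω (a : Ω) (b : Ω) hb0 _ k hk,
      ← Finset.mul_sum, ← hab]
    have h2 := hq
    rw [aeval_eq_sum_range] at h2
    simp only [zsmul_eq_mul] at h2
    rw [h2, mul_zero]
    rfl
  have hroot : Q.eval (s a / s b) = 0 := by
    have h1 := congrArg s hrel
    rw [map_sum, map_zero] at h1
    have h2 : ∑ k ∈ Finset.range (d + 1), ((q.coeff k : ℤ) : ℂ) * (s a) ^ k * (s b) ^ (d - k) =
        0 := by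
      rw [← h1]
      exact Finset.sum_congr rfl fun k _ => by
        rw [map_mul, map_mul, map_pow, map_pow, map_intCast]
    rw [Finset.sum_congr rfl fun k hk => hterm ℂ (s a) (s b) hsb0 _ k hk,
      ← Finset.mul_sum] at h2
    have h3 := (mul_eq_zero.1 h2).resolve_left (pow_ne_zero _ hsb0)
    rw [hQ, eval_map, eval₂_eq_sum_range]
    exact h3
  have hmem : s a / s b ∈ Q.roots.toFinset := by
    rw [Multiset.mem_toFinset, mem_roots hQne]
    exact hroot
  have hlog : ∑ i, (m i : ℝ) * Real.log ‖s (y i)‖ = Real.log ‖s a / s b‖ := by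
    rw [← hsab, norm_prod, Real.log_prod]
    · exact Finset.sum_congr rfl fun i _ => by
        rw [norm_zpow, Real.log_zpow]
    · intro i _
      rw [norm_ne_zero_iff]
      exact zpow_ne_zero _ (hs i)
  rw [hlog]
  exact Finset.single_le_sum (f := fun z : ℂ => |Real.log ‖z‖|) (fun _ _ => abs_nonneg _) hmem

end Pool.Agent.LUB.H22
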