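import Pool.Agent.LUB.Stmts

/-!
# Squad LUB, row OSC
-/

set_option autoImplicit false

open Polynomial

namespace Pool.Agent.LUB.H22

/-- The logarithmic derivative of an integer power. -/
theorem ld_zpow {Ω : Type} [Field Ω] (D : Derivation ℤ Ω Ω) (x : Ω) (hx : x ≠ 0) (m : ℤ) :
    D (x ^ m) / x ^ m = m * (D x / x) := by
  rw [Derivation.leibniz_zpow, smul_eq_mul]
  rw [zpow_sub_one₀ hx]
  have h : x ^ m ≠ 0 := zpow_ne_zero _ hx
  rw [zsmul_eq_mul]
  field_simp

/-- The logarithmic derivative of a product. -/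
theorem ld_prod {Ω : Type} [Field Ω] (D : Derivation ℤ Ω Ω) {κ : Type} (s : Finset κ) (x : κ → Ω)
    (hx : ∀ i, x i ≠ 0) : D (∏ i ∈ s, x i) / ∏ i ∈ s, x i = ∑ i ∈ s, D (x i) / x i := by
  classical
  induction s using Finset.induction_on with
  | empty => simp
  | insert a s ha ih =>
    rw [Finset.prod_insert ha, Finset.sum_insert ha, ← ih, Derivation.leibniz, smul_eq_mul,
      smul_eq_mul]
    have h1 : ∏ i ∈ s, x i ≠ 0 := Finset.prod_ne_zero_iff.2 fun i _ => hx i
    have h2 := hx a
    field_simp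
    ring

/-- Multiplication by an integer commutes with the derivation. -/
theorem d_int_mul {Ω : Type} [Field Ω] (D : Derivation ℤ Ω Ω) (n : ℤ) (x : Ω) :
    D ((n : Ω) * x) = (n : Ω) * D x := by
  rw [Derivation.leibniz, Derivation.map_intCast, smul_zero, add_zero, smul_eq_mul]

/-- The constants are stable under multiplication by rational numbers. -/
theorem const_rat {Ω : Type} [Field Ω] [CharZero Ω] (D : Derivation ℤ Ω Ω) (q : ℚ) (x : Ω)
    (hx : D x = 0) : D (q • x) = 0 := by
  have h1 : (((q.den : ℤ) : ℤ) : Ω) * (q • x) = (q.num : Ω) * x := by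
    rw [Rat.smul_def, ← mul_assoc]
    congr 1
    have h2 : ((q.den : ℚ) : Ω) * (q : Ω) = ((q.num : ℚ) : Ω) := by
      rw [← Rat.cast_mul]
      congr 1
      rw [mul_comm]
      exact Rat.mul_den_eq_num q
    simpa using h2
  have h3 := congrArg D h1
  rw [d_int_mul, d_int_mul, hx, mul_zero] at h3
  have h5 : (((q.den : ℤ) : ℤ) : Ω) ≠ 0 := by
    have := q.den_nz
    exact_mod_cast this
  exact (mul_eq_zero.1 h3).resolve_left h5

/-- Logarithms of multiplicatively independent functions. -/
theorem osc : OscStmt := by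
  intro hOst Ω _ _ D T hDT κ _ v c a hc hv hvalg haalg hind hrel
  classical
  -- the constants as a rational vector space
  let Cst : Submodule ℚ Ω :=
    { carrier := {x | D x = 0}
      add_mem' := fun {x y} hx hy => by
        change D (x + y) = 0
        rw [map_add, show D x = 0 from hx, show D y = 0 from hy, add_zero]
      zero_mem' := map_zero D
      smul_mem' := fun q x hx => const_rat D q x hx }
  have hCst : ∀ x, x ∈ Cst ↔ D x = 0 := fun x => Iff.rfl
  set S : Submodule ℚ Ω := Submodule.span ℚ (Set.range c) with hS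
  have hSC : S ≤ Cst := by
    rw [hS, Submodule.span_le]
    rintro _ ⟨l, rfl⟩
    exact hc l
  have hfin : Module.Finite ℚ S := Module.Finite.span_of_finite ℚ (Set.finite_range c)
  set d := Module.finrank ℚ S with hd
  let b : Module.Basis (Fin d) ℚ S := Module.finBasis ℚ S
  let β : Fin d → Ω := fun k => (b k : Ω)
  have hβ : ∀ k, D (β k) = 0 := fun k => hSC (b k).2
  have hβli : LinearIndependent ℚ β :=
    b.linearIndependent.map' S.subtype (Submodule.ker_subtype S)
  have hcS : ∀ l, c l ∈ S := fun l => Submodule.subset_span ⟨l, rfl⟩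
  let r : κ → Fin d → ℚ := fun l k => b.repr ⟨c l, hcS l⟩ k
  have hr : ∀ l, c l = ∑ k, r l k • β k := by
    intro l
    have h1 := congrArg (Subtype.val) (b.sum_repr ⟨c l, hcS l⟩)
    rw [AddSubmonoidClass.coe_finsetSum] at h1
    exact h1.symm
  -- a common denominator
  obtain ⟨N, hN⟩ := IsLocalization.exist_integer_multiples (nonZeroDivisors ℤ)
    (Finset.univ : Finset (κ × Fin d)) (fun x => r x.1 x.2)
  have hN0 : ((N : ℤ) : Ω) ≠ 0 := by
    have := nonZeroDivisors.ne_zero N.2
    exact_mod_cast this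
  have hq : ∀ l k, ∃ q : ℤ, (q : ℚ) = ((N : ℤ) : ℚ) * r l k := by
    intro l k
    obtain ⟨q, hq⟩ := hN (l, k) (Finset.mem_univ _)
    refine ⟨q, ?_⟩
    rw [← zsmul_eq_mul]
    exact hq
  choose q hq using hq
  have hNc : ∀ l, ((N : ℤ) : Ω) * c l = ∑ k, (q l k : Ω) * β k := by
    intro l
    rw [hr l, Finset.mul_sum]
    refine Finset.sum_congr rfl fun k _ => ?_
    rw [Rat.smul_def, ← mul_assoc]
    congr 1
    have h1 := congrArg (fun x : ℚ => (x : Ω)) (hq l k)
    simpa using h1.symm
  let w : Fin d → Ω := fun k => ∏ l, v l ^ q l k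
  have hw0 : ∀ k, w k ≠ 0 := fun k => Finset.prod_ne_zero_iff.2 fun l _ => zpow_ne_zero _ (hv l)
  have hwalg : ∀ k, IsAlgebraic (Fld D T) (w k) := by
    intro k
    rw [← mem_algebraicClosure_iff]
    refine prod_mem fun l _ => ?_
    exact zpow_mem (mem_algebraicClosure_iff.2 (hvalg l)) _
  have haalg' : IsAlgebraic (Fld D T) (((N : ℤ) : Ω) * a) := by
    rw [← mem_algebraicClosure_iff]
    exact mul_mem (intCast_mem _ _) (mem_algebraicClosure_iff.2 haalg)
  have hsum : ∑ k, β k * (D (w k) / w k) = D (((N : ℤ) : Ω) * a) := by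
    rw [d_int_mul, ← hrel, Finset.mul_sum]
    have h1 : ∀ k, D (w k) / w k = ∑ l, (q l k : Ω) * (D (v l) / v l) := by
      intro k
      rw [ld_prod D Finset.univ (fun l => v l ^ q l k) fun l => zpow_ne_zero _ (hv l)]
      exact Finset.sum_congr rfl fun l _ => ld_zpow D (v l) (hv l) _
    calc ∑ k, β k * (D (w k) / w k)
        = ∑ k, ∑ l, (q l k : Ω) * β k * (D (v l) / v l) := by
          refine Finset.sum_congr rfl fun k _ => ?_
          rw [h1, Finset.mul_sum]
          exact Finset.sum_congr rfl fun l _ => by ring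
      _ = ∑ l, ∑ k, (q l k : Ω) * β k * (D (v l) / v l) := Finset.sum_comm
      _ = ∑ l, ((N : ℤ) : Ω) * (c l * (D (v l) / v l)) := by
          refine Finset.sum_congr rfl fun l _ => ?_
          rw [← Finset.sum_mul, ← hNc l]
          ring
  have hDw := hOst Ω D T hDT (Fin d) β w _ hβ hβli hw0 hwalg haalg' hsum
  have hq0 : ∀ l k, q l k = 0 := by
    intro l k
    exact congrFun (hind (fun l => q l k) (hDw k)) l
  funext l
  have h1 := hNc l
  simp only [hq0, Int.cast_zero, zero_mul, Finset.sum_const_zero] at h1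
  exact (mul_eq_zero.1 h1).resolve_left hN0

end Pool.Agent.LUB.H22
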